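import Pool.Agent.H787.G.R_seed8.R877.RN.Stm

set_option autoImplicit false

namespace R877.RN
open Matrix Filter Topology

/-- the block diagonal part with respect to the levels of `a` -/
noncomputable def PARB_dl {n : ℕ} (a : Fin n → ℝ) (X : Mat n) : Mat n := by
  classical exact fun i j => if a i = a j then X i j else 0

theorem PARB_dl_pos {n : ℕ} {a : Fin n → ℝ} {X : Mat n} {i j : Fin n} (h : a i = a j) :
    PARB_dl a X i j = X i j := by
  unfold PARB_dl
  rw [if_pos h]

theorem PARB_dl_neg {n : ℕ} {a : Fin n → ℝ} {X : Mat n} {i j : Fin n} (h : a i ≠ a j) :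
    PARB_dl a X i j = 0 := by
  unfold PARB_dl
  rw [if_neg h]

theorem PARB_mul {n : ℕ} {a : Fin n → ℝ} {X Y : Mat n} (hX : Par a X) (hY : Par a Y) :
    Par a (X * Y) := by
  intro i j h
  rw [Matrix.mul_apply] at h
  obtain ⟨k, -, hk⟩ := Finset.exists_ne_zero_of_sum_ne_zero h
  exact (hY k j (right_ne_zero_of_mul hk)).trans (hX i k (left_ne_zero_of_mul hk))

theorem PARB_one {n : ℕ} (a : Fin n → ℝ) : Par a (1 : Mat n) := by
  intro i j h
  by_cases hij : i = j
  · rw [hij]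
  · exact absurd (Matrix.one_apply_ne hij) h

theorem PARB_dl_mul {n : ℕ} {a : Fin n → ℝ} {X Y : Mat n} (hX : Par a X) (hY : Par a Y) :
    PARB_dl a (X * Y) = PARB_dl a X * PARB_dl a Y := by
  ext i j
  rw [Matrix.mul_apply]
  by_cases h : a i = a j
  · rw [PARB_dl_pos h, Matrix.mul_apply]
    refine Finset.sum_congr rfl (fun k _ => ?_)
    by_cases hk : a i = a k
    · rw [PARB_dl_pos hk, PARB_dl_pos (hk.symm.trans h)]
    · rw [PARB_dl_neg hk, zero_mul]
      by_contra hne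
      have h1 := hX i k (left_ne_zero_of_mul hne)
      have h2 := hY k j (right_ne_zero_of_mul hne)
      rw [← h] at h2
      exact hk (le_antisymm h2 h1)
  · rw [PARB_dl_neg h]
    symm
    refine Finset.sum_eq_zero (fun k _ => ?_)
    by_cases hk : a i = a k
    · have hk' : a k ≠ a j := fun h' => h (hk.trans h')
      rw [PARB_dl_neg hk', mul_zero]
    · rw [PARB_dl_neg hk, zero_mul]

theorem PARB_dl_one {n : ℕ} (a : Fin n → ℝ) : PARB_dl a (1 : Mat n) = 1 := by
  ext i j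
  by_cases h : a i = a j
  · rw [PARB_dl_pos h]
  · rw [PARB_dl_neg h, Matrix.one_apply_ne (fun hij => h (congrArg a hij))]

theorem PARB_comm {n : ℕ} (a : Fin n → ℝ) (X : Mat n) :
    Commute (Matrix.diagonal a) (PARB_dl a X) := by
  change Matrix.diagonal a * PARB_dl a X = PARB_dl a X * Matrix.diagonal a
  ext i j
  rw [Matrix.diagonal_mul, Matrix.mul_diagonal]
  by_cases h : a i = a j
  · rw [h, mul_comm]
  · rw [PARB_dl_neg h, mul_zero, zero_mul]

theorem PARB_sum {n : ℕ} (a : Fin n → ℝ) (X : Mat n) :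
    ∑ i, a i * X i i = (Matrix.diagonal a * PARB_dl a X).trace := by
  unfold Matrix.trace
  refine Finset.sum_congr rfl (fun i _ => ?_)
  rw [Matrix.diag_apply, Matrix.diagonal_mul, PARB_dl_pos rfl]

theorem p_BT (hinv : P_PINV) : P_BT := by
  intro n a R X hR hPR hPX
  have hPI : Par a R⁻¹ := hinv n a R hR hPR
  rw [PARB_sum, PARB_sum, PARB_dl_mul (PARB_mul hPR hPX) hPI, PARB_dl_mul hPR hPX]
  have h1 : PARB_dl a R⁻¹ * PARB_dl a R = 1 := by
    rw [← PARB_dl_mul hPI hPR, Matrix.nonsing_inv_mul R hR, PARB_dl_one]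
  have h2 : Matrix.diagonal a * (PARB_dl a R * PARB_dl a X * PARB_dl a R⁻¹) =
      PARB_dl a R * (Matrix.diagonal a * PARB_dl a X * PARB_dl a R⁻¹) := by
    rw [← Matrix.mul_assoc, ← Matrix.mul_assoc, (PARB_comm a R).eq]
    simp only [Matrix.mul_assoc]
  rw [h2, Matrix.trace_mul_comm, Matrix.mul_assoc, h1, Matrix.mul_one]

theorem PARB_pow {n : ℕ} {a : Fin n → ℝ} {X : Mat n} (hX : Par a X) (m : ℕ) :
    Par a (X ^ m) ∧ PARB_dl a (X ^ m) = (PARB_dl a X) ^ m := by
  induction m with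
  | zero => exact ⟨by rw [pow_zero]; exact PARB_one a, by rw [pow_zero, pow_zero, PARB_dl_one]⟩
  | succ m ih =>
    refine ⟨by rw [pow_succ]; exact PARB_mul ih.1 hX, ?_⟩
    rw [pow_succ, pow_succ, PARB_dl_mul ih.1 hX, ih.2]

theorem p_NIL0 : P_NIL0 := by
  intro n a X hX hP
  obtain ⟨m, hm⟩ := hX
  rw [PARB_sum]
  have h1 : IsNilpotent (Matrix.diagonal a * PARB_dl a X) := by
    refine ⟨m, ?_⟩
    have h0 : PARB_dl a (0 : Mat n) = 0 := by
      ext i j
      by_cases h : a i = a j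
      · rw [PARB_dl_pos h]
      · rw [PARB_dl_neg h]; rfl
    rw [(PARB_comm a X).mul_pow, ← (PARB_pow hP m).2, hm, h0, mul_zero]
  exact (Matrix.isNilpotent_trace_of_isNilpotent h1).eq_zero

end R877.RN
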